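import Mathlib

set_option autoImplicit false

open Set Filter Topology Pointwise

namespace Pool.Agent.Results.MP_f24352_gt.Counter

/-- Totally bounded and Hausdorff. -/
def Precompact (X : Type) [AddCommGroup X] [TopologicalSpace X] : Prop :=
  (∀ U ∈ 𝓝 (0 : X), ∃ E : Set X, E.Finite ∧ U + E = univ) ∧ T2Space X

/-- `H` is the intersection of the kernels of a sequence of characters. -/
def NCharacterized {X : Type} [AddCommGroup X] [TopologicalSpace X] (H : AddSubgroup X) : Prop :=
  ∃ v : ℕ → X →+ AddCircle (1 : ℝ), (∀ n, Continuous (v n)) ∧ ∀ x, x ∈ H ↔ ∀ n, v n x = 0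

lemma nb {ι : Type} (X : AddSubgroup (ι → ZMod 2)) {U : Set X} (h : U ∈ 𝓝 (0 : X)) :
    ∃ I : Set ι, I.Finite ∧ ∀ x : X, (∀ i ∈ I, x.1 i = 0) → x ∈ U := by
  rw [nhds_subtype, nhds_pi] at h
  obtain ⟨V, hV, e⟩ := mem_comap.1 h
  obtain ⟨I, hI, t, ht, s⟩ := mem_pi.1 hV
  exact ⟨I, hI, fun x hx => e (s fun i hi => hx i hi ▸ mem_of_mem_nhds (ht i))⟩

lemma pre {ι : Type} (X : AddSubgroup (ι → ZMod 2)) : Precompact X := by
  refine ⟨fun U h => ?_, inferInstance⟩
  obtain ⟨I, hI, s⟩ := nb X h
  have := hI.to_subtype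
  let r : X → I → ZMod 2 := fun x i => x.1 i
  refine ⟨range (Function.invFun r), finite_range _, eq_univ_of_forall fun x =>
    ⟨x - Function.invFun r (r x), s _ fun i hi => ?_, _, ⟨r x, rfl⟩, by simp⟩⟩
  exact sub_eq_zero.2 (congrFun (Function.invFun_eq (f := r) ⟨x, rfl⟩) ⟨i, hi⟩).symm

abbrev T := Σ k : ℕ, Fin k → Bool

def res (k : ℕ) (p : ℕ → Bool) : Fin k → Bool := fun i => p i

noncomputable def Φ : (T →₀ ZMod 2) × ((ℕ → Bool) →₀ ZMod 2) →+ (T ⊕ (ℕ → Bool) → ZMod 2) where
  toFun := fun x => Sum.elim (fun t => x.1 t + x.2.mapDomain (res t.1) t.2) x.2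
  map_zero' := by ext (t | p) <;> simp
  map_add' := fun x y => by
    ext (t | p) <;> simp [Finsupp.mapDomain_add]
    ring

def F : AddSubgroup Φ.range where
  carrier := {x | ∀ p, x.1 (.inr p) = 0}
  zero_mem' := fun _ => rfl
  add_mem' := fun a b p => by simp [a p, b p]
  neg_mem' := fun a p => by simp [a p]

lemma ev (f : T →₀ ZMod 2) : ∀ᶠ k in atTop, ∀ t, f ⟨k, t⟩ = 0 := by
  filter_upwards [eventually_gt_atTop (f.support.sup Sigma.fst)] with k hk t
  exact by_contra fun c => hk.not_ge (Finset.le_sup (f := Sigma.fst) (Finsupp.mem_support_iff.2 c))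

lemma gd : IsGδ (F : Set Φ.range) := by
  have : (F : Set Φ.range) = ⋂ n : ℕ, ⋃ k ≥ n, ⋂ t, {x | x.1 (.inl ⟨k, t⟩) = 0} := by
    ext ⟨_, ⟨f, z⟩, rfl⟩
    simp only [mem_iInter, mem_iUnion, mem_ofPred_eq, exists_prop]
    rw [← frequently_atTop]
    constructor
    · intro h
      obtain rfl : z = 0 := Finsupp.ext h
      exact ((ev f).mono fun k hk t => by simp [Φ, hk t]).frequently
    · intro h p
      have : ∀ᶠ k in atTop, InjOn (res k) z.support := by
        refine ((eventually_all_finset z.support).2 fun a _ => (eventually_all_finset z.support).2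
          fun b _ => (?_ : ∀ᶠ k in atTop, res k a = res k b → a = b)).mono fun k h a p b q => h a p b q
        by_cases e : a = b
        · simp [e]
        obtain ⟨i, hi⟩ := Function.ne_iff.1 e
        filter_upwards [eventually_gt_atTop i] with k hk c using (hi (congrFun c ⟨i, hk⟩)).elim
      obtain ⟨k, a, b, c⟩ := (h.and_eventually ((ev f).and this)).exists
      by_contra d
      have := a (res k p)
      simp only [Φ, AddMonoidHom.coe_mk, ZeroHom.coe_mk, Sum.elim_inl, b, zero_add] at this
      rw [Finsupp.mapDomain_apply' _ z subset_rfl c (Finsupp.mem_support_iff.2 d)] at this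
      exact d this
  rw [this]
  exact .iInter fun n => (isOpen_iUnion fun k => isOpen_iUnion fun _ =>
    isOpen_iInter_of_finite fun t => (isOpen_discrete {0}).preimage
      ((continuous_apply _).comp continuous_subtype_val)).isGδ

theorem result : ∃ (X : Type) (_ : AddCommGroup X) (_ : TopologicalSpace X)
    (_ : IsTopologicalAddGroup X) (F : AddSubgroup X), Precompact X ∧ IsClosed (F : Set X) ∧
      IsGδ (F : Set X) ∧ ¬NCharacterized F := by
  classical
  refine ⟨Φ.range, inferInstance, inferInstance, inferInstance, F, pre _, ?_, gd, ?_⟩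
  · exact (show (F : Set Φ.range) = ⋂ p, {x | x.1 (.inr p) = 0} by ext; simp [F]) ▸
      isClosed_iInter fun p => isClosed_eq ((continuous_apply _).comp continuous_subtype_val)
        continuous_const
  rintro ⟨v, hv, h⟩
  have fin : ({y : AddCircle (1 : ℝ) | 2 • y = 0} \ {0}).Finite :=
    (AddCircle.finite_torsion 1 two_pos).sdiff
  choose I hI s using fun n => nb Φ.range (U := v n ⁻¹' _ᶜ)
    ((fin.isClosed.isOpen_compl.preimage (hv n)).mem_nhds (by simp))
  have : Uncountable (ℕ → Bool) := by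
    rw [← Cardinal.aleph0_lt_mk_iff]; simp [Cardinal.aleph0_lt_continuum]
  obtain ⟨p, hp⟩ : ∃ p, ∀ n, .inr p ∉ I n := by_contra fun c => not_countable_univ <|
    (countable_iUnion fun n => ((hI n).preimage Sum.inr_injective.injOn).countable).mono
      fun p _ => by simpa using not_exists.1 c p
  let y : Φ.range := ⟨Φ (0, Finsupp.single p 1), _, rfl⟩
  suffices y ∈ F by simpa [y, Φ] using this p
  refine (h y).2 fun n => ?_
  let f : T →₀ ZMod 2 := Finsupp.onFinset ((hI n).preimage Sum.inl_injective.injOn).toFinset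
    (fun t => if .inl t ∈ I n then y.1 (.inl t) else 0) fun t ht => by
      simpa using (ite_ne_right_iff.1 ht).1
  let x : Φ.range := ⟨Φ (f, 0), _, rfl⟩
  have a := s n (y - x) (by
    rintro (t | q) hi
    · show y.1 (.inl t) - (f t + Finsupp.mapDomain _ 0 _) = 0
      simp [f, hi]
    · show Finsupp.single p (1 : ZMod 2) q - 0 = 0
      simp [Finsupp.single_apply, show p ≠ q from fun e => hp n (e ▸ hi)])
  have b : v n x = 0 := (h x).1 (fun _ => rfl) n
  have c : 2 • y = 0 := Subtype.ext (funext fun i => by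
    simp [two_nsmul, CharTwo.add_self_eq_zero])
  have d : 2 • v n y = 0 := by rw [← map_nsmul, c, map_zero]
  simpa [b, d] using a

end Pool.Agent.Results.MP_f24352_gt.Counter
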